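import Pool.Agent.helper26.EC.SpecW

/-! # Row ec:COM -/

set_option autoImplicit false

namespace Pool.Agent.EC

open Finset ArithmeticFunction

theorem COM_rough {N a q : ℕ} (hc : Nat.Coprime a 30)
    (h : ¬ ∃ q : ℕ, q.Prime ∧ q ∣ a ∧ 7 ≤ q ∧ (q : ℝ) < (N : ℝ) ^ az) (hq : q.Prime) (hqa : q ∣ a) :
    (N : ℝ) ^ az ≤ (q : ℝ) := by
  by_contra hcon
  push Not at hcon
  apply h
  refine ⟨q, hq, hqa, ?_, hcon⟩
  have hc' : Nat.Coprime q 30 := Nat.Coprime.coprime_dvd_left hqa hc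
  have h2 := hq.two_le
  by_contra h7
  push Not at h7
  interval_cases q
  · exact absurd hc' (by decide)
  · exact absurd hc' (by decide)
  · exact absurd hq (by decide)
  · exact absurd hc' (by decide)
  · exact absurd hq (by decide)

theorem COM (hCM0 : CM0_stmt) (hCM1 : CM1_stmt) (hTSB : TSB_stmt) : COM_stmt := by
  classical
  obtain ⟨N0, h0⟩ := hCM0
  obtain ⟨N1, h1⟩ := hCM1
  obtain ⟨C, -, hTS⟩ := hTSB
  refine ⟨max (max N0 N1) 2, fun N hN a ha1 ha2 hc hsq hpos => ?_⟩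
  have hN0 : N0 ≤ N := le_trans (le_trans (le_max_left _ _) (le_max_left _ _)) hN
  have hN1 : N1 ≤ N := le_trans (le_trans (le_max_right _ _) (le_max_left _ _)) hN
  have hN2 : 2 ≤ N := le_trans (le_max_right _ _) hN
  have hTS0 : 0 ≤ TS N a := (hTS N hN2 a).1
  have ha0 : a ≠ 0 := by omega
  have hpsi : 0 < psi0 N a := by linarith
  have hno : ¬ ∃ q : ℕ, q.Prime ∧ q ∣ a ∧ 7 ≤ q ∧ (q : ℝ) < (N : ℝ) ^ az := by
    intro hex
    unfold psi0 at hpsi
    rw [if_pos hex] at hpsi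
    exact lt_irrefl _ hpsi
  have hps : psi0 N a = 1 - 1 / 2 *
      (#(a.primeFactors.filter fun q : ℕ => (N : ℝ) ^ az ≤ (q : ℝ) ∧ (q : ℝ) < (N : ℝ) ^ ay) : ℝ) := by
    unfold psi0
    rw [if_neg hno]
  have hge : ∀ q ∈ a.primeFactors, (N : ℝ) ^ az ≤ (q : ℝ) := fun q hq =>
    COM_rough hc hno (Nat.prime_of_mem_primeFactors hq) (Nat.dvd_of_mem_primeFactors hq)
  have hsqf : Squarefree a := by
    rw [Nat.squarefree_iff_prime_squarefree]
    intro q hq hqq
    have hqa : q ∣ a := dvd_trans (dvd_mul_right q q) hqq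
    exact hsq q hq (COM_rough hc hno hq hqa) (by rw [pow_two]; exact hqq)
  have hcard : cardFactors a = #a.primeFactors := by
    rw [← (cardDistinctFactors_eq_cardFactors_iff_squarefree ha0).2 hsqf]
    rfl
  refine ⟨?_, ?_⟩
  · rw [hcard]
    by_contra h5
    push Not at h5
    have h5' : 5 ≤ #a.primeFactors := h5
    rw [hps] at hpos
    rcases Nat.lt_or_ge (#(a.primeFactors.filter fun q : ℕ => (N : ℝ) ^ az ≤ (q : ℝ) ∧ (q : ℝ) < (N : ℝ) ^ ay)) 1 with
      hk | hk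
    · have hk0 : #(a.primeFactors.filter fun q : ℕ => (N : ℝ) ^ az ≤ (q : ℝ) ∧ (q : ℝ) < (N : ℝ) ^ ay) = 0 := by omega
      have hall : ∀ q ∈ a.primeFactors, (N : ℝ) ^ ay ≤ (q : ℝ) := by
        intro q hq
        by_contra hcon
        push Not at hcon
        have hm : q ∈ a.primeFactors.filter fun q : ℕ => (N : ℝ) ^ az ≤ (q : ℝ) ∧ (q : ℝ) < (N : ℝ) ^ ay :=
          mem_filter.2 ⟨hq, hge q hq, hcon⟩
        rw [card_eq_zero.1 hk0] at hm
        simp at hm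
      have := h0 N hN0 a ha1 ha2 hsqf hall h5'
      rw [hk0] at hpos
      push_cast at hpos
      linarith
    · have hk2 : #(a.primeFactors.filter fun q : ℕ => (N : ℝ) ^ az ≤ (q : ℝ) ∧ (q : ℝ) < (N : ℝ) ^ ay) < 2 := by
        by_contra hcon
        push Not at hcon
        have : (2 : ℝ) ≤ (#(a.primeFactors.filter fun q : ℕ => (N : ℝ) ^ az ≤ (q : ℝ) ∧ (q : ℝ) < (N : ℝ) ^ ay) : ℝ) := by
          exact_mod_cast hcon
        linarith
      have hk1 : #(a.primeFactors.filter fun q : ℕ => (N : ℝ) ^ az ≤ (q : ℝ) ∧ (q : ℝ) < (N : ℝ) ^ ay) = 1 := by omega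
      obtain ⟨q₀, hq₀⟩ := card_eq_one.1 hk1
      have hm : q₀ ∈ a.primeFactors.filter fun q : ℕ => (N : ℝ) ^ az ≤ (q : ℝ) ∧ (q : ℝ) < (N : ℝ) ^ ay := by
        rw [hq₀]; exact mem_singleton_self _
      rw [mem_filter] at hm
      have hall : ∀ q ∈ a.primeFactors, q ≠ q₀ → (N : ℝ) ^ ay ≤ (q : ℝ) := by
        intro q hq hne
        by_contra hcon
        push Not at hcon
        have hm' : q ∈ a.primeFactors.filter fun q : ℕ => (N : ℝ) ^ az ≤ (q : ℝ) ∧ (q : ℝ) < (N : ℝ) ^ ay :=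
          mem_filter.2 ⟨hq, hge q hq, hcon⟩
        rw [hq₀, mem_singleton] at hm'
        exact hne hm'
      have := h1 N hN1 a q₀ ha1 ha2 hsqf hm.1 hm.2.1 hm.2.2 hall h5'
      rw [hk1] at hpos
      push_cast at hpos
      linarith
  · intro q hq
    have hq1 := hge q hq
    have hNR : (1 : ℝ) < N := by exact_mod_cast (by omega : 1 < N)
    have e1 : ((N : ℝ) ^ az) ^ 11 ≤ (q : ℝ) ^ 11 := pow_le_pow_left₀ (by positivity) hq1 11
    have e2 : ((N : ℝ) ^ az) ^ 11 = (N : ℝ) ^ (az * 11) := by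
      rw [Real.rpow_mul (by positivity)]
      norm_num
    have e3 : (N : ℝ) < (N : ℝ) ^ (az * 11) := by
      have : (N : ℝ) ^ (1 : ℝ) < (N : ℝ) ^ (az * 11) := Real.rpow_lt_rpow_of_exponent_lt hNR (by unfold az; norm_num)
      rwa [Real.rpow_one] at this
    have e4 : (N : ℝ) < (q : ℝ) ^ 11 := by
      rw [e2] at e1
      linarith
    exact_mod_cast e4

end Pool.Agent.EC
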