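import Pool.Agent.helper4.EC.Spec

/-!
# Project EC, row FI
-/

set_option autoImplicit false

namespace Pool.Agent.helper4.EC

open Finset

universe u

theorem FI (h1 : W2_stmt.{u}) (h2 : DI_stmt.{u}) (h3 : ST_stmt.{u}) : FI_stmt.{u} := by
  intro V _ _ G hconn hC hS hiso
  obtain ⟨φ⟩ := hiso
  have hCi : Chordal (iGraph G) := by
    intro n hn
    exact ⟨fun e => (hC n hn).false (e.trans φ.toRelEmbedding)⟩
  have hadj : ∀ X Y, G.Adj (φ X) (φ Y) ↔ (iGraph G).Adj X Y := fun X Y => φ.map_rel_iff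
  have hadj' : ∀ a b, (iGraph G).Adj (φ.symm a) (φ.symm b) ↔ G.Adj a b := fun a b => φ.symm.map_rel_iff
  have hDF : DF G := by
    intro a b c d hab hac hbc had hbd hcd
    have := h2 V G (φ.symm a) (φ.symm b) (φ.symm c) (φ.symm d) ((hadj' _ _).mpr hab) ((hadj' _ _).mpr hac)
      ((hadj' _ _).mpr hbc) ((hadj' _ _).mpr had) ((hadj' _ _).mpr hbd) (fun h => hcd (φ.symm.injective h))
    exact (hadj' _ _).mp this
  have hSi : SpreadBridges (iGraph G) := by
    intro a b c hab hac hbc
    rcases hS (φ a) (φ b) (φ c) ((hadj _ _).mpr hab) ((hadj _ _).mpr hac) (fun h => hbc (φ.injective h)) with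
      ⟨t, ht1, ht2⟩ | ⟨t, ht1, ht2⟩
    · left
      refine ⟨φ.symm t, ?_, ?_⟩
      · rw [← hadj, RelIso.apply_symm_apply]; exact ht1
      · rw [← hadj, RelIso.apply_symm_apply]; exact ht2
    · right
      refine ⟨φ.symm t, ?_, ?_⟩
      · rw [← hadj, RelIso.apply_symm_apply]; exact ht1
      · rw [← hadj, RelIso.apply_symm_apply]; exact ht2
  have hTW : ∀ (k : ℕ) (w : ℕ → V), TW G k w → TW (iGraph G) k (fun i => φ.symm (w i)) := by
    intro k w hw
    refine ⟨fun i hi => (hadj' _ _).mpr (hw.1 i hi), fun i hi => ⟨fun h => (hw.2 i hi).1 (φ.symm.injective h), fun h => (hw.2 i hi).2 ((hadj' _ _).mp h)⟩⟩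
  have hno : ∀ w, ¬ TW G 2 w := by
    intro w0 hw0
    have key : ∀ n : ℕ, ∃ k, n + 2 ≤ k ∧ ∃ w, TW G k w := by
      intro n
      induction n with
      | zero => exact ⟨2, le_rfl, w0, hw0⟩
      | succ n ih =>
        obtain ⟨k, hk, w, hw⟩ := ih
        obtain ⟨k', rfl⟩ : ∃ k', k = k' + 1 := ⟨k - 1, by omega⟩
        obtain ⟨w', hw'⟩ := h3 V G hC hCi hDF hSi k' _ (hTW _ w hw)
        exact ⟨3 * k' + 1, by omega, w', hw'⟩
    obtain ⟨k, hk, w, hw⟩ := key (Fintype.card V)
    have := h1 V G hC k w hw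
    omega
  have htr : ∀ a b c, G.Adj a b → G.Adj b c → a ≠ c → G.Adj a c := by
    intro a b c hab hbc hac
    by_contra hn
    apply hno (fun i => if i = 0 then a else if i = 1 then b else c)
    refine ⟨?_, ?_⟩
    · intro i hi
      have : i = 0 ∨ i = 1 := by omega
      rcases this with rfl | rfl
      · simpa using hab
      · simpa using hbc
    · intro i hi
      have : i = 0 := by omega
      subst this
      refine ⟨?_, ?_⟩
      · simpa using hac
      · simpa using hn
  have hwalk : ∀ x y : V, G.Walk x y → x ≠ y → G.Adj x y := by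
    intro x y p
    induction p with
    | nil => intro h; exact absurd rfl h
    | @cons x z y h p ih =>
      intro hxy
      by_cases hzy : z = y
      · rw [← hzy]; exact h
      · exact htr x z y h (ih hzy) hxy
  ext x y
  rw [SimpleGraph.top_adj]
  constructor
  · intro h; exact h.ne
  · intro hxy
    obtain ⟨p⟩ := hconn.preconnected x y
    exact hwalk x y p hxy

end Pool.Agent.helper4.EC
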